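import Mathlib

set_option autoImplicit false

namespace Pool.Agent.Results.MP_122225_al.Counter

open Filter Topology Finset
open scoped Pointwise Classical

lemma op {α : Type} (j : α → α) (D : Set α) (hj : Set.InjOn j D) :
    ∃ W : lp (fun _ : α => ℝ) 2 →L[ℝ] lp (fun _ : α => ℝ) 2,
      ∀ v t, W v t = if t ∈ D then v (j t) else 0 := by
  have p : 0 < (2 : ENNReal).toReal := by norm_num
  have h : ∀ (v : lp (fun _ : α => ℝ) 2) (s : Finset α),
      ∑ t ∈ s, ‖if t ∈ D then v (j t) else 0‖ ^ (2 : ENNReal).toReal ≤ ‖v‖ ^ (2 : ENNReal).toReal :=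
    fun v s => by
      refine le_trans (le_of_eq ?_) (lp.sum_rpow_le_norm_rpow p v ((s.filter (· ∈ D)).image j))
      rw [sum_image fun x hx y hy e => hj (mem_filter.1 hx).2 (mem_filter.1 hy).2 e, sum_filter]
      refine sum_congr rfl fun t _ => ?_
      split_ifs <;> simp
  refine ⟨LinearMap.mkContinuous
    { toFun := fun v => ⟨fun t => if t ∈ D then v (j t) else 0, memℓp_gen' (h v)⟩
      map_add' := fun v w => lp.ext (funext fun t => ?_)
      map_smul' := fun c v => lp.ext (funext fun t => ?_) } 1 fun v => ?_, fun v t => rfl⟩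
  · change (if t ∈ D then (v + w) (j t) else 0) =
      (if t ∈ D then v (j t) else 0) + if t ∈ D then w (j t) else 0
    split_ifs <;> simp
  · change (if t ∈ D then (c • v) (j t) else 0) = c • if t ∈ D then v (j t) else 0
    split_ifs <;> simp
  · rw [one_mul]
    exact lp.norm_le_of_forall_sum_le p (norm_nonneg _) (h v)

abbrev G := FreeGroup Bool

@[ext] structure S where
  l : Finset G
  g : G

noncomputable instance : Monoid S where
  mul x y := ⟨x.l ∪ x.g • y.l, x.g * y.g⟩
  one := ⟨∅, 1⟩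
  mul_assoc x y z := S.ext
    (show (x.l ∪ x.g • y.l) ∪ (x.g * y.g) • z.l = x.l ∪ x.g • (y.l ∪ y.g • z.l) by
      rw [smul_finset_union, mul_smul, union_assoc]) (mul_assoc x.g y.g z.g)
  one_mul x := S.ext (show ∅ ∪ (1 : G) • x.l = x.l by simp) (one_mul x.g)
  mul_one x := S.ext (show x.l ∪ x.g • ∅ = x.l by simp) (mul_one x.g)

lemma ml (x y : S) : x * y = ⟨x.l ∪ x.g • y.l, x.g * y.g⟩ := rfl

def a : G := FreeGroup.of true

noncomputable def X (i : Fin 14) : S :=
  if i.1 < 10 then ⟨{1}, a⟩ else ⟨∅, FreeGroup.mk [(decide (i.1 < 12), decide (i.1 % 2 = 0))]⟩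

lemma gen : Submonoid.closure (Set.range X) = ⊤ := by
  have h : ∀ i, X i ∈ Submonoid.closure (Set.range X) := fun i => Submonoid.subset_closure ⟨i, rfl⟩
  generalize Submonoid.closure (Set.range X) = T at h
  have u : ∀ g : G, (⟨∅, g⟩ : S) ∈ T := fun g => by
    induction g using FreeGroup.induction_on with
    | C1 => exact T.one_mem
    | of x => cases x; exacts [h 12, h 10]
    | inv_of x _ => cases x; exacts [h 13, h 11]
    | mul x y hx hy => simpa [ml] using T.mul_mem hx hy
  refine eq_top_iff.2 fun ⟨A, g⟩ _ => ?_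
  induction A using Finset.induction_on with
  | empty => exact u g
  | insert x A _ ih =>
    have := T.mul_mem (u x) (T.mul_mem (h 0) (T.mul_mem (u (a⁻¹ * x⁻¹)) (ih trivial)))
    simpa [ml, X, smul_smul, smul_finset_insert, mul_assoc] using this

lemma push (i : Fin 14) : ∃ W : lp (fun _ : S => ℝ) 2 →L[ℝ] lp (fun _ : S => ℝ) 2,
    ∀ v t, HasSum (fun s => v s * if X i * s = t then (1 : ℝ) else 0) (W v t) := by
  unfold X
  split_ifs
  · obtain ⟨W, hW⟩ := op (fun t : S => ⟨a⁻¹ • t.l, a⁻¹ * t.g⟩) {t | 1 ∈ t.l} fun x _ y _ e => by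
      simpa [S.ext_iff] using e
    obtain ⟨V, hV⟩ := op (fun t : S => ⟨a⁻¹ • t.l.erase 1, a⁻¹ * t.g⟩) {t | 1 ∈ t.l}
      fun x hx y hy e => by
        simp only [S.ext_iff, smul_left_cancel_iff, mul_right_inj] at e ⊢
        exact ⟨by rw [← insert_erase hx, e.1, insert_erase hy], e.2⟩
    refine ⟨W + V, fun v t => ?_⟩
    rw [ContinuousLinearMap.add_apply, lp.coeFn_add, Pi.add_apply, hW, hV]
    by_cases ht : 1 ∈ t.l
    · simp only [Set.mem_setOf_eq, ht, if_true]
      have n : (⟨a⁻¹ • t.l, a⁻¹ * t.g⟩ : S) ≠ ⟨a⁻¹ • t.l.erase 1, a⁻¹ * t.g⟩ := fun e => by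
        simp only [S.ext_iff, smul_left_cancel_iff] at e
        exact notMem_erase _ _ (e.1 ▸ ht)
      have := hasSum_sum_of_ne_finset_zero (f := fun s => v s *
        if (⟨{1}, a⟩ : S) * s = t then (1 : ℝ) else 0) (L := .unconditional S)
        (s := {⟨a⁻¹ • t.l, a⁻¹ * t.g⟩, ⟨a⁻¹ • t.l.erase 1, a⁻¹ * t.g⟩}) fun s hs => by
          rw [if_neg, mul_zero]
          rintro rfl
          refine hs ?_
          by_cases k : 1 ∈ a • s.l
          · simp [ml, k]
          · simp [ml, erase_insert k]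
      rw [sum_pair n] at this
      simpa [ml, ht] using this
    · simp only [Set.mem_setOf_eq, ht, if_false, add_zero]
      rw [show (fun s => v s * if (⟨{1}, a⟩ : S) * s = t then (1 : ℝ) else 0) = fun _ => 0 from
        funext fun s => by rw [if_neg, mul_zero]; rintro rfl; simp [ml] at ht]
      exact hasSum_zero
  · generalize FreeGroup.mk _ = g
    obtain ⟨W, hW⟩ := op (fun t : S => ⟨g⁻¹ • t.l, g⁻¹ * t.g⟩) .univ fun x _ y _ e => by
      simpa [S.ext_iff] using e
    refine ⟨W, fun v t => ?_⟩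
    have := hasSum_single (f := fun s => v s * if (⟨∅, g⟩ : S) * s = t then (1 : ℝ) else 0)
      (L := .unconditional S) ⟨g⁻¹ • t.l, g⁻¹ * t.g⟩ fun s hs => by
        rw [if_neg, mul_zero]
        rintro rfl
        simp [ml] at hs
    simpa [ml, hW] using this

lemma pw (n : ℕ) : (⟨{1}, a⟩ : S) ^ n = ⟨(range n).image (a ^ ·), a ^ n⟩ := by
  induction n with
  | zero => rfl
  | succ n ih => rw [pow_succ, ih]; simp [ml, range_add_one, pow_succ]

/-- Real `l2` of a set. -/
abbrev L2 (S : Type) : Type := lp (fun _ : S => ℝ) 2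

/-- Bounded operators on `l2`. -/
abbrev Op (S : Type) : Type := L2 S →L[ℝ] L2 S

/-- `M` is the left random walk operator of the family `X`. -/
def IsWalk {S : Type} [Monoid S] {k : ℕ} (X : Fin k → S) (M : Op S) : Prop :=
  ∀ (v : L2 S) (t : S), HasSum (fun s => v s * ((Nat.card {i // X i * s = t} : ℝ) / k)) (M v t)

/-- The operator norm of the `n`-th power. -/
noncomputable def np {S : Type} (M : Op S) (n : ℕ) : ℝ := ‖M ^ n‖

/-- Left amenability. -/
def LeftAmenable (S : Type) [Monoid S] : Prop :=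
  ∃ μ : Set S → ℝ, (∀ A, 0 ≤ μ A) ∧ μ Set.univ = 1 ∧
    (∀ A B, Disjoint A B → μ (A ∪ B) = μ A + μ B) ∧ ∀ A a, μ {s | a * s ∈ A} = μ A

/-- A finitely generated left reversible monoid with the Klawe condition whose left random walk
operator is defined and has norm and spectral radius at least one, but is not left amenable. -/
theorem result : ∃ (S : Type) (_ : Monoid S) (k : ℕ) (X : Fin k → S) (M : Op S),
    Submonoid.closure (Set.range X) = ⊤ ∧
    (∀ a b : S, ∃ s t, a * s = b * t) ∧
    (∀ s x y : S, s * x = s * y → ∃ t, x * t = y * t) ∧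
    IsWalk X M ∧ (∀ n : ℕ, 1 ≤ np M n) ∧
    (∀ ρ, Tendsto (fun n : ℕ => np M n ^ (1 / n : ℝ)) atTop (𝓝 ρ) → 1 ≤ ρ) ∧
    ¬ LeftAmenable S := by
  choose W hW using push
  set M := (1 / 14 : ℝ) • ∑ i, W i
  have hM : ∀ v t, HasSum (fun s => v s * ((Nat.card {i // X i * s = t} : ℝ) / (14 : ℕ))) (M v t) :=
    fun v t => by
      have := (hasSum_sum fun i (_ : i ∈ univ) => hW i v t).mul_left (1 / 14 : ℝ)
      simp only [M, ContinuousLinearMap.smul_apply, ContinuousLinearMap.sum_apply, lp.coeFn_smul,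
        lp.coeFn_sum, Pi.smul_apply, Finset.sum_apply, smul_eq_mul]
      rwa [show (fun s => v s * ((Nat.card {i // X i * s = t} : ℝ) / (14 : ℕ))) = _ from
        funext fun s => ?_]
      rw [Nat.card_eq_fintype_card, Fintype.card_subtype, ← mul_sum, sum_boole]
      push_cast; ring
  have key : ∀ (n : ℕ) (v : lp (fun _ : S => ℝ) 2), (∀ s, 0 ≤ v s) → ∀ (F : Finset S) t,
      (∀ s ∈ F, (⟨{1}, a⟩ : S) ^ n * s = t) → (10 / 14) ^ n * ∑ s ∈ F, v s ≤ (M ^ n) v t := by
    intro n
    induction n with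
    | zero =>
      intro v hv F t h
      simpa using sum_le_sum_of_subset_of_nonneg (f := v) (t := {t})
        (fun s hs => by simpa using h s hs) fun s _ _ => hv s
    | succ n ih =>
      intro v hv F t h
      have z : ∀ t s, 0 ≤ v s * ((Nat.card {i // X i * s = t} : ℝ) / (14 : ℕ)) := fun t s =>
        mul_nonneg (hv s) (by positivity)
      refine le_trans ?_ (ih (M v) (fun s => (hM v s).nonneg (z s)) (F.image (⟨{1}, a⟩ * ·)) t
        (forall_mem_image.2 fun s hs => by rw [← mul_assoc, ← pow_succ, h s hs]))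
      rw [pow_succ, mul_assoc, ← sum_fiberwise_of_maps_to (g := (⟨{1}, a⟩ * ·))
        (fun s hs => mem_image_of_mem _ hs), mul_sum]
      refine mul_le_mul_of_nonneg_left (sum_le_sum fun y _ => le_trans ?_
        (sum_le_hasSum (F.filter (⟨{1}, a⟩ * · = y)) (fun s _ => z y s) (hM v y))) (by positivity)
      rw [mul_sum]
      refine sum_le_sum fun s hs => ?_
      rw [mul_comm]
      refine mul_le_mul_of_nonneg_left (div_le_div_of_nonneg_right ?_ (by norm_num)) (hv s)
      rw [Nat.card_eq_fintype_card, Fintype.card_subtype]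
      exact_mod_cast le_trans (by decide) (card_le_card (s := univ.filter fun i : Fin 14 => i.1 < 10)
        fun i hi => by simpa [X, (mem_filter.1 hi).2] using (mem_filter.1 hs).2)
  have low : ∀ n : ℕ, 1 ≤ ‖M ^ n‖ := fun n => by
    set F : Finset S := ((range n).image (a ^ ·)).powerset.image fun B => ⟨(a ^ n)⁻¹ • B, 1⟩
    have c : F.card = 2 ^ n := by
      rw [card_image_of_injective _ fun x y e => by simpa using e, card_powerset,
        card_image_of_injective _ (injective_pow_iff_not_isOfFinOrder.2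
          (not_isOfFinOrder_of_isMulTorsionFree (a := a) (FreeGroup.of_ne_one _))), card_range]
    have p : 0 < (2 : ENNReal).toReal := by norm_num
    have e : ∀ s, (∑ y ∈ F, lp.single 2 y 1 : lp (fun _ : S => ℝ) 2) s = if s ∈ F then 1 else 0 :=
      fun s => by simp only [lp.coeFn_single, lp.coeFn_sum, Finset.sum_apply, Finset.sum_pi_single]
    have h1 := key n (∑ y ∈ F, lp.single 2 y 1) (fun s => by rw [e]; positivity) F
      ((⟨{1}, a⟩ : S) ^ n) (forall_mem_image.2 fun B hB => by
        simp [pw, ml, mem_powerset.1 hB])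
    have h2 := lp.norm_sum_single p (fun _ : S => (1 : ℝ)) F
    have h3 := (h1.trans (le_abs_self _)).trans ((lp.norm_apply_le_norm two_ne_zero _ _).trans
      ((M ^ n).le_opNorm _))
    rw [sum_congr rfl fun s hs => (e s).trans (if_pos hs)] at h3
    simp only [sum_const, c, ENNReal.toReal_ofNat, norm_one, Real.rpow_ofNat, one_pow,
      nsmul_eq_mul, mul_one, Nat.cast_pow, Nat.cast_ofNat] at h2 h3
    have h4 := pow_le_pow_left₀ (by positivity) h3 2
    rw [mul_pow ‖_‖, h2, mul_pow, sq ((2 : ℝ) ^ n), ← mul_assoc] at h4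
    have h5 := le_of_mul_le_mul_right h4 (by positivity)
    rw [← pow_mul, mul_comm n, pow_mul, ← mul_pow] at h5
    exact (one_le_sq_iff₀ (norm_nonneg _)).1 ((one_le_pow₀ (by norm_num)).trans h5)
  refine ⟨S, inferInstance, 14, X, M, gen, fun x y => ⟨⟨x.g⁻¹ • y.l, x.g⁻¹⟩, ⟨y.g⁻¹ • x.l, y.g⁻¹⟩,
    by simp [ml, union_comm]⟩, fun s x y h => ⟨⟨x.g⁻¹ • (x.l ∪ y.l), 1⟩, ?_⟩, hM, low, fun ρ h => ge_of_tendsto' h fun n =>
      Real.one_le_rpow (low n) (by positivity), fun ⟨μ, h0, h1, h2, h3⟩ => ?_⟩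
  · have : x.g = y.g := mul_left_cancel (congrArg S.g h)
    simp [ml, ← this, union_left_comm]
  · have m : ∀ A B, A ⊆ B → μ A ≤ μ B := fun A B h => by
      have := h2 A (B \ A) Set.disjoint_sdiff_right
      rw [Set.union_diff_cancel h] at this
      linarith [h0 (B \ A)]
    let T : Bool × Bool → Set S := fun w => S.g ⁻¹' FreeGroup.startsWith w
    have d : ∀ v w, v ≠ w → Disjoint (T v) (T w) := fun v w h =>
      (FreeGroup.startsWith.disjoint_iff_ne.2 h).preimage _
    have k : ∀ x, 1 ≤ μ (T (x, true) ∪ T (x, false)) := fun x => by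
      have := h2 _ _ (disjoint_compl_right (a := T (x, false)))
      rw [Set.union_compl_self, h1] at this
      rw [h2 _ _ (d _ _ (by simp)), ← h3 _ ⟨∅, FreeGroup.mk [(x, true)]⟩]
      linarith [m _ {s | (⟨∅, FreeGroup.mk [(x, true)]⟩ : S) * s ∈ T (x, true)}
        fun s (hs : s ∈ (T (x, false))ᶜ) => FreeGroup.startsWith_mk_mul (w := (x, true)) s.g hs]
    have := h2 (T (true, true) ∪ T (true, false)) (T (false, true) ∪ T (false, false))
      (by simp only [Set.disjoint_union_left, Set.disjoint_union_right]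
          exact ⟨⟨d _ _ (by simp), d _ _ (by simp)⟩, d _ _ (by simp), d _ _ (by simp)⟩)
    linarith [k true, k false, m _ _ (Set.subset_univ (T (true, true) ∪ T (true, false) ∪
      (T (false, true) ∪ T (false, false))))]

end Pool.Agent.Results.MP_122225_al.Counter
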